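import Pool.Agent.Lib.MP_696deb_nt.B2.GF

/-! The sign of the functional equation is equidistributed among the twists prime to the level. -/

set_option autoImplicit false

open scoped Classical
open Finset Filter Topology NumberTheorySymbols

namespace Pool.Agent.Lib.MP_696deb_nt.B2.V

variable (L : ℕ)

/-- The character. -/
noncomputable def gfPsi (N : ℕ) : ℝ := if N % 2 = 1 then (J(-L | N) : ℤ) else 0

theorem gf_abs (N : ℕ) : |gfPsi L N| ≤ 1 := by
  unfold gfPsi
  split_ifs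
  · rcases jacobiSym.trichotomy (-L) N with h | h | h <;> simp [h]
  · simp

theorem gf_mul (a b : ℕ) : gfPsi L (a * b) = gfPsi L a * gfPsi L b := by
  unfold gfPsi
  rcases Nat.mod_two_eq_zero_or_one a with ha | ha
  · simp [Nat.mul_mod, ha]
  rcases Nat.mod_two_eq_zero_or_one b with hb | hb
  · simp [Nat.mul_mod, hb]
  rw [if_pos ha, if_pos hb, if_pos (by simp [Nat.mul_mod, ha, hb]),
    jacobiSym.mul_right' _ (by omega) (by omega), Int.cast_mul]

theorem gf_add (N : ℕ) : gfPsi L (N + 4 * L) = gfPsi L N := by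
  unfold gfPsi
  rcases Nat.mod_two_eq_zero_or_one N with h | h
  · rw [if_neg (by omega), if_neg (by omega)]
  rw [if_pos h, if_pos (by omega), jacobiSym.mod_right _ (Nat.odd_iff.2 h),
    jacobiSym.mod_right _ (Nat.odd_iff.2 (by omega : (N + 4 * L) % 2 = 1))]
  simp

theorem gf_addk (N k : ℕ) : gfPsi L (N + 4 * L * k) = gfPsi L N := by
  induction k with
  | zero => rfl
  | succ k ih => rw [mul_add, mul_one, ← add_assoc, gf_add, ih]

variable {L}

theorem gf_psi0 {N : ℕ} (h : ¬ (N % 2 = 1 ∧ N.Coprime L)) : gfPsi L N = 0 := by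
  unfold gfPsi
  split_ifs with h2
  · rw [jacobiSym.eq_zero_iff.2 ⟨by omega, fun h3 => h ⟨h2, ?_⟩⟩, Int.cast_zero]
    exact Nat.Coprime.symm (by simpa [Int.gcd] using h3)
  · rfl

theorem gf_neg (hL : L ≠ 0) : gfPsi L (4 * L - 1) = -1 := by
  have o : Odd (4 * L - 1) := Nat.odd_iff.2 (by omega)
  have h1 : J(4 * L | 4 * L - 1) = 1 := by
    rw [jacobiSym.mod_left' (a₂ := 1) (by
      rw [show (4 * L : ℤ) = 1 + ((4 * L - 1 : ℕ) : ℤ) by omega, Int.add_emod_right]),
      jacobiSym.one_left]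
  rw [jacobiSym.mul_left, jacobiSym.at_four o, one_mul] at h1
  rw [gfPsi, if_pos (by omega), jacobiSym.neg _ o, h1, ZMod.χ₄_nat_three_mod_four (by omega)]
  simp

theorem gf_zero (hL : L ≠ 0) : ∑ N ∈ range (4 * L), gfPsi L N = 0 := by
  have h0 : gfPsi L (4 * L) = 0 := if_neg (by omega)
  have h1 : ∀ j ∈ range (4 * L + 1), gfPsi L (4 * L + 1 - 1 - j) = -gfPsi L j := fun j hj => by
    rw [mem_range] at hj
    rcases j with _ | j
    · rw [show gfPsi L 0 = 0 from if_neg (by omega), neg_zero]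
      exact h0
    · rw [← gf_addk L _ j, ← neg_one_mul, ← gf_neg hL, ← gf_mul]
      congr 1
      obtain ⟨t, ht⟩ : ∃ t, 4 * L = t + 1 := ⟨4 * L - 1, by omega⟩
      rw [ht] at hj ⊢
      obtain ⟨u, rfl⟩ : ∃ u, t = u + j := ⟨t - j, by omega⟩
      rw [show u + j + 1 + 1 - 1 - (j + 1) = u by omega, Nat.add_sub_cancel]
      ring
  have h2 := sum_range_reflect (gfPsi L) (4 * L + 1)
  rw [sum_congr rfl h1, sum_neg_distrib, sum_range_succ, h0, add_zero] at h2
  linarith

variable (L)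

/-- The sieved character. -/
noncomputable def gfG (K N : ℕ) : ℝ :=
  if ∀ p ≤ K, p.Prime → ¬ p * p ∣ N then gfPsi L N else 0

theorem gf_sieve (hL : L ≠ 0) (K : ℕ) : ∃ C : ℝ, ∀ X, |∑ N ∈ range X, gfG L K N| ≤ C := by
  induction K with
  | zero =>
    refine ⟨(4 * L : ℕ), fun X => ?_⟩
    rw [sum_congr rfl fun N _ => show gfG L 0 N = gfPsi L N from if_pos fun p h1 h2 =>
      absurd h2.pos (by omega)]
    exact gf_per (by omega) (gf_add L) (gf_zero hL) (gf_abs L) X
  | succ K ih =>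
    obtain ⟨C, hC⟩ := ih
    by_cases hp : (K + 1).Prime
    swap
    · refine ⟨C, fun X => ?_⟩
      have e : ∀ N, gfG L (K + 1) N = gfG L K N := fun N => by
        unfold gfG
        refine if_congr ⟨fun h p h1 => h p (by omega), fun h p h1 h2 => h p ?_ h2⟩ rfl rfl
        rcases h1.lt_or_eq with h3 | rfl
        · omega
        · exact absurd h2 hp
      simpa only [e] using hC X
    refine ⟨C + C, fun X => ?_⟩
    set q := (K + 1) * (K + 1) with hq
    have q0 : 0 < q := by positivity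
    have e : ∀ N, gfG L (K + 1) N = gfG L K N - if q ∣ N then gfG L K N else 0 := fun N => by
      by_cases h : q ∣ N
      · rw [if_pos h, sub_self]
        exact if_neg fun k => k _ le_rfl hp h
      · rw [if_neg h, sub_zero]
        unfold gfG
        refine if_congr ⟨fun h p h1 => h p (by omega), fun k p h1 h2 => ?_⟩ rfl rfl
        rcases h1.lt_or_eq with h3 | rfl
        · exact k p (by omega) h2
        · exact h
    have e2 : ∀ m, gfG L K (q * m) = gfPsi L q * gfG L K m := fun m => by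
      unfold gfG
      rw [mul_ite, mul_zero, gf_mul]
      refine if_congr ⟨fun h p h1 h2 h3 => h p h1 h2 (h3.mul_left _), fun h p h1 h2 h3 =>
        h p h1 h2 ?_⟩ rfl rfl
      have c : p.Coprime (K + 1) := (Nat.coprime_primes h2 hp).2 (by omega)
      exact (Nat.Coprime.mul_left (c.mul_right c) (c.mul_right c)).dvd_of_dvd_mul_left h3
    have e3 : (range X).filter (q ∣ ·) = (range ((X + q - 1) / q)).image (q * ·) := by
      ext N
      simp only [mem_filter, mem_range, mem_image, Nat.lt_iff_add_one_le,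
        Nat.le_div_iff_mul_le q0, add_mul, one_mul]
      constructor
      · rintro ⟨h1, m, rfl⟩
        exact ⟨m, by rw [mul_comm m]; omega, rfl⟩
      · rintro ⟨m, h1, rfl⟩
        exact ⟨by rw [mul_comm m] at h1; omega, dvd_mul_right _ _⟩
    simp only [e, sum_sub_distrib]
    rw [← sum_filter, e3, sum_image fun a _ b _ h => Nat.eq_of_mul_eq_mul_left q0 h]
    simp only [e2, ← mul_sum]
    refine (abs_sub _ _).trans (add_le_add (hC X) ?_)
    rw [abs_mul]
    exact (mul_le_of_le_one_left (abs_nonneg _) (gf_abs L _)).trans (hC _)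

/-- The family of absolute values. -/
noncomputable def gfS (X : ℕ) : Finset ℕ :=
  (range (X + 1)).filter fun N => Squarefree N ∧ N % 2 = 1 ∧ N.Coprime L

theorem gf_small (hL : L ≠ 0) {δ : ℝ} (hδ : 0 < δ) :
    ∀ᶠ X : ℕ in atTop, |∑ N ∈ gfS L X, gfPsi L N| ≤ δ * X := by
  obtain ⟨K, hK⟩ := exists_nat_gt (2 / δ)
  have K0 : (0 : ℝ) < K := (by positivity : 0 < 2 / δ).trans hK
  obtain ⟨C, hC⟩ := gf_sieve L hL K
  filter_upwards [(tendsto_natCast_atTop_atTop (R := ℝ)).eventually_ge_atTop (2 * C / δ)] with X hX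
  have h1 := gf_bad (K := K) (by rintro rfl; simp at K0) X
  have h2 : ∀ N, |(if Squarefree N ∧ N % 2 = 1 ∧ N.Coprime L then gfPsi L N else 0) -
      gfG L K N| ≤ if N ≠ 0 ∧ ∃ k, K < k ∧ k * k ∣ N then 1 else 0 := fun N => by
    by_cases h3 : N % 2 = 1 ∧ N.Coprime L
    swap
    · simp only [gfG, gf_psi0 h3, ite_self, sub_self, abs_zero]
      split_ifs <;> norm_num
    by_cases h4 : Squarefree N
    · rw [if_pos ⟨h4, h3⟩, gfG, if_pos fun p _ hp => Nat.squarefree_iff_prime_squarefree.1 h4 p hp,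
        sub_self, abs_zero]
      split_ifs <;> norm_num
    rw [if_neg fun k => h4 k.1, zero_sub, abs_neg, gfG]
    by_cases h5 : ∀ p ≤ K, p.Prime → ¬ p * p ∣ N
    · rw [if_pos h5, if_pos]
      · exact gf_abs L N
      rw [Nat.squarefree_iff_prime_squarefree] at h4
      push Not at h4
      obtain ⟨p, hp, h6⟩ := h4
      exact ⟨by omega, p, not_le.1 fun k => h5 p k hp h6, h6⟩
    · rw [if_neg h5, abs_zero]
      split_ifs <;> norm_num
  have h3 := (abs_sum_le_sum_abs _ (range (X + 1))).trans (sum_le_sum fun N _ => h2 N)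
  rw [sum_sub_distrib, sum_boole, ← sum_filter] at h3
  have h4 := hC (X + 1)
  have h5 : (X : ℝ) / K ≤ δ / 2 * X := by
    rw [div_le_iff₀ K0]
    rw [div_lt_iff₀ hδ] at hK
    have : (0 : ℝ) ≤ X := Nat.cast_nonneg _
    nlinarith
  rw [div_le_iff₀ hδ] at hX
  unfold gfS
  rw [abs_le] at h3 h4 ⊢
  constructor <;> linarith [h3.1, h3.2, h4.1, h4.2]

theorem gf_big (hL : L ≠ 0) (X : ℕ) : (X : ℝ) ≤ 8 * L * (gfS L X).card := by
  have h1 := gf_bad (K := 2) (by norm_num) X
  have h2 : (((Ioc 0 X).filter fun N => 4 ∣ N).card : ℝ) ≤ X / 4 := by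
    rw [Nat.Ioc_filter_dvd_card_eq_div]
    exact_mod_cast Nat.cast_div_le (α := ℝ) (m := X) (n := 4)
  have h3 : Ioc 0 X ⊆ (((Ioc 0 X).filter Squarefree) ∪ (Ioc 0 X).filter fun N => 4 ∣ N) ∪
      (range (X + 1)).filter fun N => N ≠ 0 ∧ ∃ k, 2 < k ∧ k * k ∣ N := by
    intro N hN
    simp only [mem_filter, mem_union, mem_range]
    by_cases h4 : Squarefree N
    · exact .inl (.inl ⟨hN, h4⟩)
    rw [Nat.squarefree_iff_prime_squarefree] at h4
    push Not at h4
    obtain ⟨p, hp, h6⟩ := h4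
    have h5 := mem_Ioc.1 hN
    rcases hp.two_le.eq_or_lt with rfl | h7
    · exact .inl (.inr ⟨hN, h6⟩)
    · exact .inr ⟨by omega, by omega, p, h7, h6⟩
  have h4 := (Nat.cast_le (α := ℝ)).2 ((card_le_card h3).trans ((card_union_le _ _).trans
    (Nat.add_le_add_right (card_union_le _ _) _)))
  have h5 : ((Ioc 0 X).filter Squarefree).card ≤ (Ioc 0 (2 * L) ×ˢ gfS L X).card := by
    refine card_le_card_of_injOn (fun N => (N.gcd (2 * L), N / N.gcd (2 * L))) (fun N hN => ?_)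
      fun N _ N' _ k => ?_
    · obtain ⟨a1, a2⟩ := mem_filter.1 (mem_coe.1 hN)
      have a3 := Nat.coprime_div_gcd_of_squarefree a2 (show 2 * L ≠ 0 by omega)
      have a4 := Nat.div_le_self N (N.gcd (2 * L))
      refine mem_coe.2 (mem_product.2 ⟨mem_Ioc.2 ⟨Nat.gcd_pos_of_pos_right _ (by omega),
        Nat.gcd_le_right _ (by omega)⟩, mem_filter.2 ⟨mem_range.2 (Nat.lt_succ_of_le (a4.trans (mem_Ioc.1 a1).2)), a2.squarefree_of_dvd (Nat.div_dvd_of_dvd (Nat.gcd_dvd_left _ _)),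
        Nat.odd_iff.1 (Nat.coprime_two_right.1 a3.coprime_mul_right_right),
        a3.coprime_mul_left_right⟩⟩)
    · obtain ⟨k1, k2⟩ := Prod.mk.inj k
      rw [← Nat.mul_div_cancel' (Nat.gcd_dvd_left N (2 * L)), k2, k1,
        Nat.mul_div_cancel' (Nat.gcd_dvd_left N' (2 * L))]
  have h6 := (Nat.cast_le (α := ℝ)).2 h5
  rw [card_product, Nat.card_Ioc] at h6
  rw [Nat.card_Ioc] at h4
  push_cast [Nat.sub_zero] at h1 h4 h6
  linarith

/-- The family. -/
noncomputable def gfF (X : ℕ) : Finset ℤ :=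
  (Icc (-(X : ℤ)) X).filter fun d => Squarefree d ∧ d % 4 = 1 ∧ IsCoprime d L

theorem gf_cop {d : ℤ} : IsCoprime d L ↔ d.natAbs.Coprime L := by
  rw [Int.isCoprime_iff_gcd_eq_one]
  rfl

theorem gf_sum (X : ℕ) (f : ℕ → ℝ) : ∑ d ∈ gfF L X, f d.natAbs = ∑ N ∈ gfS L X, f N := by
  refine sum_bij (fun d _ => d.natAbs) (fun d hd => ?_) (fun d hd e he h => ?_) (fun N hN => ?_)
    fun _ _ => rfl
  · simp only [gfF, gfS, mem_filter, mem_Icc, mem_range, gf_cop] at hd ⊢
    exact ⟨by omega, Int.squarefree_natAbs.2 hd.2.1, by omega, hd.2.2.2⟩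
  · simp only [gfF, mem_filter] at hd he
    omega
  · simp only [gfF, gfS, mem_filter, mem_Icc, mem_range, gf_cop] at hN ⊢
    by_cases h : N % 4 = 1
    · exact ⟨N, ⟨by omega, Int.squarefree_natAbs.1 (by simpa using hN.2.1), by omega,
        by simpa using hN.2.2.2⟩, by simp⟩
    · exact ⟨-N, ⟨by omega, Int.squarefree_natAbs.1 (by simpa using hN.2.1), by omega,
        by simpa using hN.2.2.2⟩, by simp⟩

/-- The sign of the functional equation is equidistributed in the family. -/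
theorem half_of (hL : L ≠ 0) {P : ℕ → ℤ → Prop} (hd : ∀ d, P 0 d → ¬ P 1 d)
    (h : ∀ ε : ℝ, 0 < ε → ∃ X0 : ℕ, ∀ X ≥ X0, (((Icc (-(X : ℤ)) X).filter fun d : ℤ =>
      (Squarefree d ∧ d % 4 = 1 ∧ IsCoprime d L) ∧
        ¬ P (if J(-L | d.natAbs) = 1 then 0 else 1) d).card : ℝ) ≤ ε * X)
    {r : ℕ} (hr : r ≤ 1) :
    Tendsto (fun X : ℕ =>
      (Set.ncard {d : ℤ | |d| ≤ X ∧ Squarefree d ∧ d % 4 = 1 ∧ IsCoprime d L ∧ P r d} : ℝ) /
        (Set.ncard {d : ℤ | |d| ≤ X ∧ Squarefree d ∧ d % 4 = 1 ∧ IsCoprime d L} : ℝ))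
      atTop (𝓝 (1 / 2)) := by
  rw [Metric.tendsto_nhds]
  intro ε hε
  have L0 : (0 : ℝ) < L := Nat.cast_pos.2 (Nat.pos_of_ne_zero hL)
  obtain ⟨δ, hδ, e0⟩ : ∃ δ : ℝ, 0 < δ ∧ δ * (8 * L) = ε / 5 :=
    ⟨ε / (40 * L), by positivity, by field_simp; norm_num⟩
  obtain ⟨X0, h0⟩ := h δ hδ
  filter_upwards [eventually_ge_atTop X0, gf_small L hL hδ,
    (tendsto_natCast_atTop_atTop (R := ℝ)).eventually_gt_atTop 0] with X h1 h2 h3
  have e1 : {d : ℤ | |d| ≤ X ∧ Squarefree d ∧ d % 4 = 1 ∧ IsCoprime d L ∧ P r d} =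
      ↑((gfF L X).filter (P r)) := by
    ext d
    simp [gfF, abs_le, and_assoc]
  have e2 : {d : ℤ | |d| ≤ X ∧ Squarefree d ∧ d % 4 = 1 ∧ IsCoprime d L} = ↑(gfF L X) := by
    ext d
    simp [gfF, abs_le, and_assoc]
  rw [e1, e2, Set.ncard_coe_finset, Set.ncard_coe_finset, Real.dist_eq]
  have b := h0 X h1
  rw [← filter_filter, ← gfF, ← sum_boole] at b
  have c : ((gfF L X).card : ℝ) = (gfS L X).card := by simpa using gf_sum L X fun _ => 1
  have g := gf_big L hL X
  rw [← c] at g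
  rw [← gf_sum, abs_le] at h2
  have k : ∀ d ∈ gfF L X, |(if P r d then (1 : ℝ) else 0) - 1 / 2 -
      (1 / 2 - r) * gfPsi L d.natAbs| ≤
      if ¬ P (if J(-L | d.natAbs) = 1 then 0 else 1) d then 1 else 0 := fun d hd' => by
    simp only [gfF, mem_filter] at hd'
    have j : J(-L | d.natAbs) = 1 ∨ J(-L | d.natAbs) = -1 := by
      refine jacobiSym.eq_one_or_neg_one ?_
      rw [Int.gcd, Int.natAbs_neg]
      exact ((gf_cop L).1 hd'.2.2.2).symm
    have := hd d
    rw [gfPsi, if_pos (by omega : d.natAbs % 2 = 1)]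
    interval_cases r <;> rcases j with j | j <;> by_cases p0 : P 0 d <;> by_cases p1 : P 1 d <;>
      simp only [j, p0, p1, forall_const, not_true_eq_false] at this ⊢ <;> norm_num [p0, p1]
  have k2 := ((abs_sum_le_sum_abs _ _).trans (sum_le_sum k)).trans b
  rw [sum_sub_distrib, sum_sub_distrib, sum_boole, ← mul_sum, sum_const, nsmul_eq_mul,
    abs_le] at k2
  have a0 : (0 : ℝ) < (gfF L X).card := (mul_pos_iff_of_pos_left (by positivity)).1 (h3.trans_le g)
  have r2 : |(1 / 2 - (r : ℝ)) * ∑ d ∈ gfF L X, gfPsi L d.natAbs| ≤ δ * X := by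
    interval_cases r <;> rw [abs_le] <;> push_cast <;> constructor <;> nlinarith [h2.1, h2.2]
  rw [abs_le] at r2
  have a1 : δ * X ≤ ε / 5 * (gfF L X).card := by
    rw [← e0, mul_assoc]
    exact mul_le_mul_of_nonneg_left g hδ.le
  have a2 := mul_pos hε a0
  rw [abs_lt, lt_sub_iff_add_lt, sub_lt_iff_lt_add, lt_div_iff₀ a0, div_lt_iff₀ a0]
  constructor <;> nlinarith [k2.1, k2.2, r2.1, r2.2]

end Pool.Agent.Lib.MP_696deb_nt.B2.V
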